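import Pool.Agent.W120.WM.Defs2

set_option autoImplicit false

/-! Project WM2, part INTERP (owner helper120). -/

namespace Pool.Agent.W431.WM

open Pool.Agent.W120.WM

theorem interp : U_INTERP := by
  intro C0 hC0
  have hpi := Real.pi_pos
  have hlog2 : 0 < Real.log (2 + C0) := Real.log_pos (by linarith)
  refine ⟨3 / 4 * Real.log (2 + C0) + Real.pi / 4 * C0, by positivity, ?_⟩
  intro a b t θ hat htb hθ h1 h2 h3
  have hab : 0 < b - a := by linarith
  have hθ0 : 0 < θ := by
    by_contra hc
    push Not at hc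
    have : θ * (b - a) ≤ 0 := mul_nonpos_of_nonpos_of_nonneg hc hab.le
    linarith
  have hθ1 : θ < 1 := by
    by_contra hc
    push Not at hc
    have : 1 * (b - a) ≤ θ * (b - a) := mul_le_mul_of_nonneg_right hc hab.le
    linarith
  have ht : t = θ * a + (1 - θ) * b := by linarith
  have hC' : 0 ≤ Real.pi / 4 * C0 := by positivity
  unfold ph
  rcases le_or_gt 0 a with ha | ha
  · have hb : 0 ≤ b := by linarith
    have ht0 : 0 ≤ t := by linarith
    rw [abs_of_nonneg ha, abs_of_nonneg hb, abs_of_nonneg ht0]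
    have e1 : Real.log (1 + t) ≤ Real.log (1 + a) + Real.log (2 + C0) := by
      rw [← Real.log_mul (by linarith) (by linarith)]
      apply Real.log_le_log (by linarith)
      nlinarith [h1 ha, mul_nonneg ha hC0.le]
    have e2 : Real.log (1 + a) ≤ Real.log (1 + b) :=
      Real.log_le_log (by linarith) (by linarith)
    have e3 : Real.log (1 + a) ≤ θ * Real.log (1 + a) + (1 - θ) * Real.log (1 + b) := by
      nlinarith
    have e4 : -(Real.pi / 4) * t = θ * (-(Real.pi / 4) * a) + (1 - θ) * (-(Real.pi / 4) * b) := by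
      rw [ht]; ring
    rw [e4]
    nlinarith
  · rcases le_or_gt b 0 with hb | hb
    · have ht0 : t ≤ 0 := by linarith
      rw [abs_of_neg ha, abs_of_nonpos hb, abs_of_nonpos ht0]
      have e1 : Real.log (1 + -t) ≤ Real.log (1 + -b) + Real.log (2 + C0) := by
        rw [← Real.log_mul (by linarith) (by linarith)]
        apply Real.log_le_log (by linarith)
        nlinarith [h2 hb, mul_nonneg (neg_nonneg.2 hb) hC0.le]
      have e2 : Real.log (1 + -b) ≤ Real.log (1 + -a) :=
        Real.log_le_log (by linarith) (by linarith)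
      have e3 : Real.log (1 + -b) ≤ θ * Real.log (1 + -a) + (1 - θ) * Real.log (1 + -b) := by
        nlinarith
      have e4 : -(Real.pi / 4) * -t =
          θ * (-(Real.pi / 4) * -a) + (1 - θ) * (-(Real.pi / 4) * -b) := by
        rw [ht]; ring
      rw [e4]
      nlinarith
    · obtain ⟨ha', hb'⟩ := h3 ha.le hb.le
      have ht' : |t| ≤ C0 := by
        rw [abs_le] at ha' hb' ⊢
        constructor <;> linarith
      have e1 : Real.log (1 + |t|) ≤ Real.log (2 + C0) :=
        Real.log_le_log (by positivity) (by linarith)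
      have e2 : 0 ≤ Real.log (1 + |a|) := Real.log_nonneg (by linarith [abs_nonneg a])
      have e3 : 0 ≤ Real.log (1 + |b|) := Real.log_nonneg (by linarith [abs_nonneg b])
      have e4 : -(Real.pi / 4) * C0 ≤ -(Real.pi / 4) * |a| + 3 / 4 * Real.log (1 + |a|) := by
        nlinarith
      have e5 : -(Real.pi / 4) * C0 ≤ -(Real.pi / 4) * |b| + 3 / 4 * Real.log (1 + |b|) := by
        nlinarith
      have e6 : -(Real.pi / 4) * C0 ≤ θ * (-(Real.pi / 4) * |a| + 3 / 4 * Real.log (1 + |a|)) +
          (1 - θ) * (-(Real.pi / 4) * |b| + 3 / 4 * Real.log (1 + |b|)) := by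
        nlinarith
      have e7 : -(Real.pi / 4) * |t| ≤ 0 := by
        have := mul_nonneg (by positivity : (0 : ℝ) ≤ Real.pi / 4) (abs_nonneg t)
        linarith
      linarith

end Pool.Agent.W431.WM
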